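import Mathlib
import Pool.Agent.Q277.DSPoly4

/-!
Weighted sums of the powers of `d_k(x) s_k(x)` over `k < n`, divided by `n`, are integer-valued.
-/

namespace Pool.Agent.Results.MP_2a941c_nt.DSPowers

open Finset Polynomial Q277.FacTools Q277.GTools Q277.DSPoly

/-- the polynomial `C(x,k) = x(x-1)...(x-k+1)/k!` over the rationals -/
noncomputable def binom (k : ℕ) : ℚ[X] := C (1 / (k.factorial : ℚ)) * ∏ i ∈ range k, (X - C (i : ℚ))

/-- the polynomial `c_k(x) = C(x,k) C(x+k,k)` -/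
noncomputable def c (k : ℕ) : ℚ[X] := binom k * (binom k).comp (X + C (k : ℚ))

/-- the polynomial `d_n(x) = ∑_{k ≤ n} 2^k C(n,k) C(x,k)` -/
noncomputable def d (n : ℕ) : ℚ[X] := ∑ k ∈ range (n + 1), C (2 ^ k * (n.choose k : ℚ)) * binom k

/-- the polynomial `s_n(x) = ∑_{k ≤ n} C(n,k) c_k(x)` -/
noncomputable def s (n : ℕ) : ℚ[X] := ∑ k ∈ range (n + 1), C (n.choose k : ℚ) * c k

/-- `A_{m,n}(x) = (1/n) ∑_{k<n} (2k+1) (d_k(x) s_k(x))^m` -/
noncomputable def A (m n : ℕ) : ℚ[X] :=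
  C (1 / (n : ℚ)) * ∑ k ∈ range n, C (2 * (k : ℚ) + 1) * (d k ^ m * s k ^ m)

/-- `B_{m,n}(x) = (1/n) ∑_{k<n} (-1)^k (2k+1) (d_k(x) s_k(x))^m` -/
noncomputable def B (m n : ℕ) : ℚ[X] :=
  C (1 / (n : ℚ)) * ∑ k ∈ range n, C ((-1) ^ k * (2 * (k : ℚ) + 1)) * (d k ^ m * s k ^ m)

/-- a rational polynomial with integer values at all integers -/
def IntegerValued (P : ℚ[X]) : Prop := ∀ a : ℤ, ∃ z : ℤ, P.eval (a : ℚ) = z

/-- falling factorial -/
def ff (x : ℚ) (k : ℕ) : ℚ := ∏ i ∈ range k, (x - i)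

def bin (x : ℚ) (k : ℕ) : ℚ := ff x k * rf k

theorem eval_binom (x : ℚ) (k : ℕ) : (binom k).eval x = bin x k := by
  unfold binom bin ff
  rw [eval_mul, eval_C, eval_prod, rf_nat]
  simp only [eval_sub, eval_X, eval_C]
  ring

theorem eval_c (x : ℚ) (k : ℕ) : (c k).eval x = bin x k * bin (x + k) k := by
  unfold c
  rw [eval_mul, eval_comp, eval_binom, eval_binom]
  simp

theorem ff_succ (x : ℚ) (k : ℕ) : ff x (k + 1) = ff x k * (x - k) := by
  unfold ff
  rw [prod_range_succ]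

theorem ff_succ' (x : ℚ) (k : ℕ) : ff (x + 1) (k + 1) = ff x k * (x + 1) := by
  unfold ff
  rw [prod_range_succ']
  congr 1
  · refine prod_congr rfl fun i _ => ?_
    push_cast
    ring
  · simp

theorem bin_nat (a k : ℕ) : bin (a : ℚ) k = (a.choose k : ℚ) := by
  induction k with
  | zero => simp [bin, ff, rf0]
  | succ k ih =>
    have h1 : (a.choose (k + 1) : ℚ) * (k + 1) = a.choose k * (a - k) := by
      rcases le_or_gt k a with h | h
      · have := Nat.choose_succ_right_eq a k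
        have h' : ((a.choose (k + 1) * (k + 1) : ℕ) : ℚ) = ((a.choose k * (a - k) : ℕ) : ℚ) := by
          rw [this]
        push_cast [Nat.cast_sub h] at h'
        exact h'
      · rw [Nat.choose_eq_zero_of_lt h, Nat.choose_eq_zero_of_lt (by omega)]
        simp
    have h2 : bin (a : ℚ) (k + 1) * (k + 1) = bin (a : ℚ) k * (a - k) := by
      unfold bin
      rw [ff_succ, rf_succ_nat k]
      push_cast
      ring
    have hk : ((k : ℚ) + 1) ≠ 0 := by positivity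
    apply mul_right_cancel₀ hk
    rw [h1, h2, ih]

/-- value of `c_k` -/
def cx (x : ℚ) (k : ℕ) : ℚ := bin x k * bin (x + k) k

theorem cx_succ (x : ℚ) (k : ℕ) : cx x (k + 1) = cx x k * ((x - k) * (x + k + 1) * (1 / ((k : ℚ) + 1)) ^ 2) := by
  unfold cx bin
  have h := rf_succ_nat k
  have hk : ((k : ℚ) + 1) ≠ 0 := by positivity
  push_cast
  rw [ff_succ, show x + ((k : ℚ) + 1) = x + k + 1 by ring, ff_succ', h]
  field_simp

theorem cx_refl (x : ℚ) (k : ℕ) : cx (-1 - x) k = cx x k := by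
  induction k with
  | zero => simp [cx, bin, ff]
  | succ k ih =>
    rw [cx_succ, cx_succ, ih]
    ring

/-- value of `d_n` -/
def dx (n : ℕ) (x : ℚ) : ℚ := ∑ k ∈ range (n + 1), 2 ^ k * (n.factorial * rf k * rf ((n : ℤ) - k)) * bin x k

theorem dx_ext (n M : ℕ) (h : n + 1 ≤ M) (x : ℚ) :
    dx n x = ∑ k ∈ range M, 2 ^ k * (n.factorial * rf k * rf ((n : ℤ) - k)) * bin x k := by
  unfold dx
  refine sum_subset (range_subset_range.2 h) fun k _ hk => ?_
  rw [mem_range] at hk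
  rw [rf_neg ((n : ℤ) - k) (by omega)]
  simp

theorem dx_rec (n : ℕ) (x : ℚ) :
    (n + 2) * dx (n + 2) x = (2 * x + 1) * dx (n + 1) x + (n + 1) * dx n x := by
  have key : ∀ k : ℕ, ((n : ℚ) + 2) * (2 ^ k * ((n + 2).factorial * rf k * rf (((n + 2 : ℕ) : ℤ) - k)) * bin x k)
      - (2 * x + 1) * (2 ^ k * ((n + 1).factorial * rf k * rf (((n + 1 : ℕ) : ℤ) - k)) * bin x k)
      - (n + 1) * (2 ^ k * (n.factorial * rf k * rf ((n : ℤ) - k)) * bin x k)
      = -((k + 1 : ℕ) : ℚ) ^ 2 * 2 ^ (k + 1) * (ff x (k + 1) * rf ((k + 1 : ℕ) : ℤ) ^ 2) *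
          ((n + 1).factorial * rf ((n : ℤ) + 2 - (k + 1 : ℕ)))
        - (-((k : ℕ) : ℚ) ^ 2 * 2 ^ k * (ff x k * rf (k : ℤ) ^ 2) *
          ((n + 1).factorial * rf ((n : ℤ) + 2 - (k : ℕ)))) := by
    intro k
    unfold bin
    push_cast
    have e1 := rf_succ_nat k
    have e3 : rf ((n : ℤ) + 1 - k) = (n + 2 - k) * rf ((n : ℤ) + 2 - k) := by
      have h := rf_shift ((n : ℤ) + 2 - k)
      rw [show (n : ℤ) + 2 - k - 1 = n + 1 - k by ring] at h
      push_cast at h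
      exact h
    have e4 : rf ((n : ℤ) - k) = (n + 1 - k) * rf ((n : ℤ) + 1 - k) := by
      have h := rf_shift ((n : ℤ) + 1 - k)
      rw [show (n : ℤ) + 1 - k - 1 = n - k by ring] at h
      push_cast at h
      exact h
    rw [show (n : ℤ) + 2 - (k + 1) = n + 1 - k by ring, e1, e4, e3, f2 n, f1 n, pow_succ, ff_succ]
    ring
  have h2 : ∑ k ∈ range (n + 3),
      (((n : ℚ) + 2) * (2 ^ k * ((n + 2).factorial * rf k * rf (((n + 2 : ℕ) : ℤ) - k)) * bin x k)
      - (2 * x + 1) * (2 ^ k * ((n + 1).factorial * rf k * rf (((n + 1 : ℕ) : ℤ) - k)) * bin x k)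
      - (n + 1) * (2 ^ k * (n.factorial * rf k * rf ((n : ℤ) - k)) * bin x k)) = 0 := by
    rw [sum_congr rfl fun k _ => key k]
    rw [sum_range_sub (fun k : ℕ => -((k : ℕ) : ℚ) ^ 2 * 2 ^ k * (ff x k * rf (k : ℤ) ^ 2) *
          ((n + 1).factorial * rf ((n : ℤ) + 2 - (k : ℕ)))) (n + 3)]
    rw [rf_neg ((n : ℤ) + 2 - ((n + 3 : ℕ))) (by push_cast; omega)]
    simp
  rw [sum_sub_distrib, sum_sub_distrib, ← mul_sum, ← mul_sum, ← mul_sum,
    ← dx_ext (n + 2) (n + 3) (by omega), ← dx_ext (n + 1) (n + 3) (by omega),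
    ← dx_ext n (n + 3) (by omega)] at h2
  linear_combination h2

theorem dx_zero (x : ℚ) : dx 0 x = 1 := by
  simp [dx, bin, ff, rf0]

theorem dx_one (x : ℚ) : dx 1 x = 2 * x + 1 := by
  unfold dx bin ff
  rw [sum_range_succ, sum_range_succ, sum_range_zero]
  simp [rf0, rf1]
  ring

theorem dx_refl (n : ℕ) (x : ℚ) : dx n (-1 - x) = (-1) ^ n * dx n x ∧
    dx (n + 1) (-1 - x) = (-1) ^ (n + 1) * dx (n + 1) x := by
  induction n with
  | zero =>
    rw [zero_add, dx_zero, dx_zero, dx_one, dx_one]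
    constructor
    · simp
    · ring
  | succ n ih =>
    refine ⟨ih.2, ?_⟩
    have h1 := dx_rec n x
    have h2 := dx_rec n (-1 - x)
    rw [ih.1, ih.2] at h2
    have hn : ((n : ℚ) + 2) ≠ 0 := by positivity
    apply mul_left_cancel₀ hn
    rw [show n + 1 + 1 = n + 2 by ring]
    rw [pow_succ] at h2
    rw [pow_add]
    linear_combination h2 - (-1) ^ n * h1

theorem eval_d (n : ℕ) (x : ℚ) : (d n).eval x = dx n x := by
  unfold d dx
  rw [eval_finsetSum]
  refine sum_congr rfl fun k _ => ?_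
  rw [eval_mul, eval_C, eval_binom, choose_rf]

theorem eval_s (n : ℕ) (x : ℚ) : (s n).eval x = ∑ k ∈ range (n + 1), (n.choose k : ℚ) * cx x k := by
  unfold s cx
  rw [eval_finsetSum]
  refine sum_congr rfl fun k _ => ?_
  rw [eval_mul, eval_C, eval_c]

theorem d_nat (n a : ℕ) : (d n).eval (a : ℚ) = dd n a := by
  rw [eval_d]
  unfold dx dd delta
  refine sum_congr rfl fun k _ => ?_
  rw [bin_nat, choose_rf]

theorem s_nat (n a : ℕ) : (s n).eval (a : ℚ) = ss n a := by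
  rw [eval_s]
  unfold ss sigma cx
  refine sum_congr rfl fun k _ => ?_
  rw [show (a : ℚ) + k = ((a + k : ℕ) : ℚ) by push_cast; ring, bin_nat, bin_nat, choose_rf, choose_rf,
    choose_rf]
  push_cast
  rw [show (a : ℤ) + k - k = a by ring]
  linear_combination (n.factorial * rf k * rf ((n : ℤ) - k)) * ((a + k).factorial * rf k ^ 2 *
    rf ((a : ℤ) - k)) * fac_rf a

theorem d_neg (n a : ℕ) : (d n).eval (-1 - (a : ℚ)) = (-1) ^ n * dd n a := by
  rw [eval_d, (dx_refl n (a : ℚ)).1, ← eval_d, d_nat]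

theorem s_neg (n a : ℕ) : (s n).eval (-1 - (a : ℚ)) = ss n a := by
  rw [← s_nat, eval_s, eval_s]
  refine sum_congr rfl fun k _ => ?_
  rw [cx_refl]

theorem main_sum (m n : ℕ) (e : ℤ) (he : e = 1 ∨ e = -1) (a : ℤ) :
    ∃ z : ℤ, ∑ k ∈ range n, (e : ℚ) ^ k * (2 * (k : ℚ) + 1) *
      (((d k).eval (a : ℚ)) ^ m * ((s k).eval (a : ℚ)) ^ m) = n * z := by
  rcases le_or_gt 0 a with h | h
  · obtain ⟨b, rfl⟩ := Int.eq_ofNat_of_zero_le h
    obtain ⟨z, hz⟩ := MM_sum e he _ (MM_pow _ (PP_mem b) m) n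
    refine ⟨z, ?_⟩
    rw [← hz]
    refine sum_congr rfl fun k _ => ?_
    rw [Pi.pow_apply, ← mul_pow, Int.cast_natCast, d_nat, s_nat]
    rfl
  · obtain ⟨b, rfl⟩ : ∃ b : ℕ, a = -1 - (b : ℤ) := ⟨(-1 - a).toNat, by omega⟩
    have he' : e * (-1) ^ m = 1 ∨ e * (-1) ^ m = -1 := by
      rcases neg_one_pow_eq_or ℤ m with h1 | h1 <;> rcases he with rfl | rfl <;> simp [h1]
    obtain ⟨z, hz⟩ := MM_sum (e * (-1) ^ m) he' _ (MM_pow _ (PP_mem b) m) n
    refine ⟨z, ?_⟩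
    rw [← hz]
    refine sum_congr rfl fun k _ => ?_
    push_cast
    rw [Pi.pow_apply, ← mul_pow, d_neg, s_neg]
    unfold PP
    have h1 : ((-1 : ℚ) ^ k * dd k b * ss k b) ^ m = ((-1) ^ m) ^ k * (dd k b * ss k b) ^ m := by
      rw [mul_assoc, mul_pow, ← pow_mul, ← pow_mul, mul_comm k m]
    rw [h1, mul_pow (e : ℚ)]
    ring

/-- For all positive integers `m` and `n` both `A_{m,n}` and `B_{m,n}` are integer-valued. -/
theorem result : ∀ m n : ℕ, 1 ≤ m → 1 ≤ n → IntegerValued (A m n) ∧ IntegerValued (B m n) := by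
  intro m n _ hn
  have hn' : (n : ℚ) ≠ 0 := by
    have : (0 : ℚ) < n := by exact_mod_cast hn
    exact this.ne'
  constructor
  · intro a
    obtain ⟨z, hz⟩ := main_sum m n 1 (Or.inl rfl) a
    refine ⟨z, ?_⟩
    unfold A
    rw [eval_mul, eval_C, eval_finsetSum]
    have e : ∀ k ∈ range n, (C (2 * (k : ℚ) + 1) * (d k ^ m * s k ^ m)).eval (a : ℚ)
        = ((1 : ℤ) : ℚ) ^ k * (2 * (k : ℚ) + 1) *
          (((d k).eval (a : ℚ)) ^ m * ((s k).eval (a : ℚ)) ^ m) := by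
      intro k _
      rw [eval_mul, eval_C, eval_mul, eval_pow, eval_pow]
      simp
    rw [sum_congr rfl e, hz]
    field_simp
  · intro a
    obtain ⟨z, hz⟩ := main_sum m n (-1) (Or.inr rfl) a
    refine ⟨z, ?_⟩
    unfold B
    rw [eval_mul, eval_C, eval_finsetSum]
    have e : ∀ k ∈ range n, (C ((-1) ^ k * (2 * (k : ℚ) + 1)) * (d k ^ m * s k ^ m)).eval (a : ℚ)
        = ((-1 : ℤ) : ℚ) ^ k * (2 * (k : ℚ) + 1) *
          (((d k).eval (a : ℚ)) ^ m * ((s k).eval (a : ℚ)) ^ m) := by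
      intro k _
      rw [eval_mul, eval_C, eval_mul, eval_pow, eval_pow]
      simp
    rw [sum_congr rfl e, hz]
    field_simp

end Pool.Agent.Results.MP_2a941c_nt.DSPowers
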